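import Pool.Agent.MWN.StmtsA

/-!
The closure test for sets of one letter vectors.
-/

set_option autoImplicit false

namespace Pool.Agent.MWN.H24

open Pool.Agent.Helper14_MV Pool.Agent.Helper2_MV Pool.Agent.MVO Pool.Agent.MWL Pool.Agent.MWS
  Pool.Agent.MWF

theorem vl_map (k : ℕ) (f : ℕ → ℕ) {j : ℕ} (hj : j ≤ k) :
    vl ((List.range (k + 1)).map f) j = f j := by
  unfold vl
  rw [List.getD_eq_getElem?_getD, List.getElem?_map, List.getElem?_range (by omega)]
  rfl

theorem mem_vecs : ∀ L : List ℕ, (∀ x ∈ L, x ≤ 2) → L ∈ vecs L.length := by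
  intro L
  induction L with
  | nil => intro _; simp [vecs]
  | cons x L ih =>
    intro h
    have h1 := ih fun y hy => h y (List.mem_cons_of_mem _ hy)
    have h2 : x ≤ 2 := h x List.mem_cons_self
    rw [List.length_cons, vecs, List.mem_flatMap]
    refine ⟨L, h1, ?_⟩
    have h3 : x = 0 ∨ x = 1 ∨ x = 2 := by omega
    rcases h3 with rfl | rfl | rfl <;> simp

theorem satB_iff (k : ℕ) (A : ℕ → Cd) (a : ℕ → ℕ) : satB k A a = true ↔ Sat k A a := by
  unfold satB Sat
  rw [List.all_eq_true]
  simp only [List.mem_range, Nat.lt_succ_iff]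

theorem sat_min (c : Cd) (n : ℕ) : c.sat (min n 2) = c.sat n := by
  rcases n with _ | _ | n
  · rfl
  · rfl
  · have h : min (n + 1 + 1) 2 = 2 := by omega
    rw [h]
    cases c with
    | z => simp [Cd.sat]
    | one => simp [Cd.sat]
    | pos => rfl
    | two => rfl
    | any => rfl

/-- `a'` is `a` with the entries cut at `2` -/
def Cut (k : ℕ) (a a' : ℕ → ℕ) : Prop := ∀ j ≤ k, a' j = min (a j) 2

theorem Cut.sat {k : ℕ} {a a' : ℕ → ℕ} (h : Cut k a a') (A : ℕ → Cd) :
    Sat k A a' ↔ Sat k A a := by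
  unfold Sat
  refine forall_congr' fun j => forall_congr' fun hj => ?_
  rw [h j hj, sat_min]

theorem Cut.eq_of_le {k : ℕ} {a a' : ℕ → ℕ} (h : Cut k a a') (h1 : ∀ j ≤ k, ¬ 2 ≤ a j) :
    ∀ j ≤ k, a' j = a j := by
  intro j hj
  rw [h j hj]
  have := h1 j hj
  omega

theorem deg_congr {k : ℕ} {a a' : ℕ → ℕ} (h : ∀ j ≤ k, a' j = a j) : deg k a' = deg k a := by
  unfold deg
  refine Finset.sum_congr rfl fun j hj => h j ?_
  have := Finset.mem_range.1 hj
  omega

theorem Cut.deg_le {k : ℕ} {a a' : ℕ → ℕ} (h : Cut k a a') : deg k a' ≤ deg k a := by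
  unfold deg
  refine Finset.sum_le_sum fun j hj => ?_
  have := Finset.mem_range.1 hj
  rw [h j (by omega)]
  exact min_le_left _ _

theorem le_deg {k : ℕ} (a : ℕ → ℕ) {j : ℕ} (hj : j ≤ k) : a j ≤ deg k a := by
  unfold deg
  exact Finset.single_le_sum (f := a) (fun i _ => Nat.zero_le _)
    (Finset.mem_range.2 (Nat.lt_succ_of_le hj))

theorem Cut.deg_one {k : ℕ} {a a' : ℕ → ℕ} (h : Cut k a a') (h1 : deg k a' ≤ 1) :
    deg k a ≤ 1 := by
  have h2 : ∀ j ≤ k, ¬ 2 ≤ a j := by
    intro j hj h3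
    have h4 := le_deg a' hj
    rw [h j hj] at h4
    omega
  rw [← deg_congr (h.eq_of_le h2)]
  exact h1

theorem any_congr {L : List ℕ} {p q : ℕ → Bool} (h : ∀ x ∈ L, p x = q x) : L.any p = L.any q := by
  induction L with
  | nil => rfl
  | cons x L ih =>
    rw [List.any_cons, List.any_cons, h x List.mem_cons_self,
      ih fun y hy => h y (List.mem_cons_of_mem _ hy)]

theorem ble_two_min (n : ℕ) : Nat.ble 2 (min n 2) = Nat.ble 2 n := by
  rw [Bool.eq_iff_iff, Nat.ble_eq, Nat.ble_eq]
  omega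

theorem ble_one_min (n : ℕ) : Nat.ble 1 (min n 2) = Nat.ble 1 n := by
  rw [Bool.eq_iff_iff, Nat.ble_eq, Nat.ble_eq]
  omega

theorem Cut.tb {k : ℕ} {a a' : ℕ → ℕ} (h : Cut k a a') {i : ℕ} (hi : i ≤ k) :
    MWN.tb k a' i = MWN.tb k a i := by
  have e1 : (List.range (i + 1)).any (fun p => Nat.ble 2 (a' p))
      = (List.range (i + 1)).any (fun p => Nat.ble 2 (a p)) :=
    any_congr fun p hp => by
      have := List.mem_range.1 hp
      rw [h p (by omega), ble_two_min]
  have e2 : (List.range (k + 1)).any (fun q => Nat.blt i q && Nat.ble 1 (a' q))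
      = (List.range (k + 1)).any (fun q => Nat.blt i q && Nat.ble 1 (a q)) :=
    any_congr fun p hp => by
      have := List.mem_range.1 hp
      rw [h p (by omega), ble_one_min]
  have e3 : (List.range (k + 1)).any (fun q => Nat.blt i q && Nat.ble 2 (a' q))
      = (List.range (k + 1)).any (fun q => Nat.blt i q && Nat.ble 2 (a q)) :=
    any_congr fun p hp => by
      have := List.mem_range.1 hp
      rw [h p (by omega), ble_two_min]
  have e4 : (a' i = 0) ↔ (a i = 0) := by
    rw [h i hi]
    omega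
  have e5 : lb a' i = lb a i := by
    unfold lb
    congr 1
    refine Finset.filter_congr fun j hj => ?_
    have := Finset.mem_range.1 hj
    rw [h j (by omega)]
    omega
  unfold MWN.tb
  rw [e1, e2, e3, e5]
  simp only [e4]
  by_cases c1 : (List.range (i + 1)).any (fun p => Nat.ble 2 (a p)) = true
  · rw [if_pos c1, if_pos c1]
  · rw [if_neg c1, if_neg c1]
    by_cases c2 : (List.range (k + 1)).any (fun q => Nat.blt i q && Nat.ble 2 (a q)) = true
    · rw [if_pos c2, if_pos c2]
    · rw [if_neg c2, if_neg c2]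
      have h2 : ∀ j ≤ k, ¬ 2 ≤ a j := by
        intro j hj h3
        by_cases h4 : j ≤ i
        · apply c1
          rw [List.any_eq_true]
          exact ⟨j, List.mem_range.2 (by omega), (Nat.ble_eq ▸ h3 : Nat.ble 2 (a j) = true)⟩
        · apply c2
          rw [List.any_eq_true]
          refine ⟨j, List.mem_range.2 (by omega), ?_⟩
          rw [Bool.and_eq_true]
          exact ⟨by rw [Nat.blt_eq]; omega, by rw [Nat.ble_eq]; exact h3⟩
      rw [deg_congr (h.eq_of_le h2)]

theorem ncl (htr : MWL.TrnStmt) (hk : MWL.KeyStmt) (hn : NtbStmt) : NclStmt := by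
  intro n R hL hN X k A hX hcl a c ha hac
  by_contra hc
  let l : List ℕ := (List.range (k + 1)).map fun j => min (a j) 2
  let m : List ℕ := (List.range (k + 1)).map fun j => min (c j) 2
  have hlv : Cut k a (vl l) := fun j hj => vl_map k _ hj
  have hmv : Cut k c (vl m) := fun j hj => vl_map k _ hj
  have hl : l ∈ vecs (k + 1) := by
    have h1 : l.length = k + 1 := by simp [l]
    rw [← h1]
    apply mem_vecs
    intro x hx
    obtain ⟨j, -, rfl⟩ := List.mem_map.1 hx
    exact min_le_right _ _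
  have hm : m ∈ vecs (k + 1) := by
    have h1 : m.length = k + 1 := by simp [m]
    rw [← h1]
    apply mem_vecs
    intro x hx
    obtain ⟨j, -, rfl⟩ := List.mem_map.1 hx
    exact min_le_right _ _
  have hsl : satB k A (vl l) = true := (satB_iff _ _ _).2 ((hlv.sat A).2 ha)
  have hsm : satB k A (vl m) = false := by
    rw [Bool.eq_false_iff]
    exact fun h => hc ((hmv.sat A).1 ((satB_iff _ _ _).1 h))
  unfold cloB at hcl
  rw [List.all_eq_true] at hcl
  have h1 := hcl l hl
  rw [hsl, Bool.not_true, Bool.false_or, List.all_eq_true] at h1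
  have h2 := h1 m hm
  rw [hsm, Bool.false_or, Bool.or_eq_true, Bool.or_eq_true, Nat.ble_eq, Nat.ble_eq,
    List.any_eq_true] at h2
  have hda : ¬ deg k a ≤ 1 := by
    intro h3
    apply hc
    intro j hj
    rw [← hN k a c hac h3 j hj]
    exact ha j hj
  have hdc : ¬ deg k c ≤ 1 := by
    intro h3
    apply hc
    intro j hj
    rw [hN k c a (R.symm hac) h3 j hj]
    exact ha j hj
  rcases h2 with (h2 | h2) | ⟨i, hi, h2⟩
  · exact hda (hlv.deg_one h2)
  · exact hdc (hmv.deg_one h2)
  have hi' : i ≤ k := by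
    have := List.mem_range.1 hi
    omega
  rw [Bool.and_eq_true, Bool.or_eq_true, bne_iff_ne, List.any_eq_true, List.any_eq_true,
    hlv.tb hi', hmv.tb hi'] at h2
  obtain ⟨hne, h3⟩ := h2
  have hne' : a i ≠ c i := by
    intro h4
    apply hne
    rw [hlv i hi', hmv i hi', h4]
  have haa : Ab n R k a i := by
    by_contra h4
    exact hne' (hk n R hL hN k a c hac i hi' h4)
  have hcc : Ab n R k c i := ((htr n R k a i).1 c hac).1 haa
  rcases h3 with ⟨b, hb, hbx⟩ | ⟨b, hb, hbx⟩
  · exact hX b (List.contains_iff_mem.1 hbx)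
      ((hn n R hL k a i hi' (by omega)).1 haa b hb)
  · exact hX b (List.contains_iff_mem.1 hbx)
      ((hn n R hL k c i hi' (by omega)).1 hcc b hb)

end Pool.Agent.MWN.H24
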